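import Mathlib

set_option autoImplicit false

open Set Filter Topology

universe u

namespace Pool.Agent.MP_c2bc14_gt.H75

/-- continuous injection into a Sigma-product of real lines -/
def Cor (X : Type u) [TopologicalSpace X] : Prop :=
  ∃ (Γ : Type u) (h : X → Γ → ℝ), Continuous h ∧ Function.Injective h ∧
    ∀ x, {i | h x i ≠ 0}.Countable

/-- splittable over Sigma-products of real lines -/
def Split (X : Type u) [TopologicalSpace X] : Prop :=
  ∀ A : Set X, ∃ (Γ : Type u) (f : X → Γ → ℝ), Continuous f ∧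
    (∀ x, {i | f x i ≠ 0}.Countable) ∧ ∀ x ∈ A, ∀ y, y ∉ A → f x ≠ f y

theorem exists_finset_exhaust {Γ : Type u} (T : Set Γ) (hT : T.Countable) :
    ∃ E : ℕ → Finset Γ, Monotone E ∧ ∀ γ ∈ T, ∃ n, γ ∈ E n := by
  classical
  rcases T.eq_empty_or_nonempty with rfl | hne
  · exact ⟨fun _ => ∅, monotone_const, by simp⟩
  · obtain ⟨f, hf⟩ := hT.exists_eq_range hne
    refine ⟨fun n => (Finset.range n).image f, ?_, ?_⟩
    · intro m n hmn
      exact Finset.image_subset_image (Finset.range_mono hmn)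
    · intro γ hγ
      rw [hf] at hγ
      obtain ⟨n, rfl⟩ := hγ
      exact ⟨n + 1, Finset.mem_image_of_mem _ (by simp)⟩

theorem approx_of_mem_closure {Γ : Type u} {S : Set (Γ → ℝ)} {p : Γ → ℝ} (hp : p ∈ closure S)
    (G : Finset Γ) {ε : ℝ} (hε : 0 < ε) : ∃ q ∈ S, ∀ γ ∈ G, |q γ - p γ| < ε := by
  have ho : IsOpen {q : Γ → ℝ | ∀ γ ∈ G, |q γ - p γ| < ε} := by
    have : {q : Γ → ℝ | ∀ γ ∈ G, |q γ - p γ| < ε} = ⋂ γ ∈ G, {q : Γ → ℝ | |q γ - p γ| < ε} := by
      ext q; simp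
    rw [this]
    refine isOpen_biInter_finset fun γ _ => ?_
    exact isOpen_lt (by fun_prop) continuous_const
  have hm : p ∈ {q : Γ → ℝ | ∀ γ ∈ G, |q γ - p γ| < ε} := by
    intro γ _; simpa using hε
  obtain ⟨q, hq1, hq2⟩ := mem_closure_iff.1 hp _ ho hm
  exact ⟨q, hq2, hq1⟩

theorem sigma_frechet {Γ : Type u} {S : Set (Γ → ℝ)} (hS : ∀ q ∈ S, {i | q i ≠ 0}.Countable)
    {p : Γ → ℝ} (hpc : {i | p i ≠ 0}.Countable) (hp : p ∈ closure S) :
    ∃ u : ℕ → Γ → ℝ, (∀ n, u n ∈ S) ∧ Tendsto u atTop (𝓝 p) := by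
  classical
  have hE : ∀ q : Γ → ℝ, ∃ E : ℕ → Finset Γ, Monotone E ∧
      ({i | q i ≠ 0}.Countable → ∀ γ, q γ ≠ 0 → ∃ n, γ ∈ E n) := by
    intro q
    by_cases hq : {i | q i ≠ 0}.Countable
    · obtain ⟨E, h1, h2⟩ := exists_finset_exhaust _ hq
      exact ⟨E, h1, fun _ γ hγ => h2 γ hγ⟩
    · exact ⟨fun _ => ∅, monotone_const, fun h => absurd h hq⟩
  choose E hEm hE using hE
  obtain ⟨f, hfP, hfr⟩ := exists_seq_of_forall_finset_exists
    (fun a : (Γ → ℝ) × ℕ => a.1 ∈ S)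
    (fun a b : (Γ → ℝ) × ℕ => a.2 < b.2 ∧
      ∀ γ, (γ ∈ E a.1 b.2 ∨ γ ∈ E p b.2) → |b.1 γ - p γ| < 1 / ((b.2 : ℝ) + 1)) (by
      intro s _
      set N := s.sup (fun a => a.2) + 1 with hN
      obtain ⟨q, hqS, hq⟩ := approx_of_mem_closure hp
        (s.biUnion (fun a => E a.1 N) ∪ E p N) (ε := 1 / ((N : ℝ) + 1)) (by positivity)
      refine ⟨(q, N), hqS, fun a ha => ⟨?_, ?_⟩⟩
      · have : a.2 ≤ s.sup (fun a => a.2) := Finset.le_sup (f := fun a : (Γ → ℝ) × ℕ => a.2) ha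
        show a.2 < N
        omega
      · intro γ hγ
        apply hq
        rcases hγ with h | h
        · exact Finset.mem_union_left _ (Finset.mem_biUnion.2 ⟨a, ha, h⟩)
        · exact Finset.mem_union_right _ h)
  refine ⟨fun n => (f n).1, hfP, ?_⟩
  have hmono : StrictMono fun n => (f n).2 := fun m n h => (hfr m n h).1
  have hle : ∀ n, n ≤ (f n).2 := fun n => hmono.id_le n
  rw [tendsto_pi_nhds]
  intro γ
  have key : (∃ m k, γ ∈ E (f m).1 k ∨ γ ∈ E p k) → Tendsto (fun n => (f n).1 γ) atTop (𝓝 (p γ)) := by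
    rintro ⟨m, k, hk⟩
    rw [Metric.tendsto_atTop]
    intro ε hε
    obtain ⟨N, hN⟩ := exists_nat_one_div_lt hε
    refine ⟨max (m + 1) (max k N), fun n hn => ?_⟩
    have h1 : m < n := by omega
    have h2 : k ≤ (f n).2 := le_trans (by omega) (hle n)
    have h3 : N ≤ (f n).2 := le_trans (by omega) (hle n)
    have h4 := (hfr m n h1).2 γ (by
      rcases hk with h | h
      · exact Or.inl (hEm _ h2 h)
      · exact Or.inr (hEm _ h2 h))
    rw [Real.dist_eq]
    refine h4.trans_le (le_trans ?_ hN.le)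
    apply one_div_le_one_div_of_le (by positivity)
    have : (N : ℝ) ≤ ((f n).2 : ℝ) := by exact_mod_cast h3
    linarith
  by_cases h1 : p γ = 0
  · by_cases h2 : ∀ m, (f m).1 γ = 0
    · simp [h1, h2]
    · push Not at h2
      obtain ⟨m, hm⟩ := h2
      obtain ⟨k, hk⟩ := hE _ (hS _ (hfP m)) γ hm
      exact key ⟨m, k, Or.inl hk⟩
  · obtain ⟨k, hk⟩ := hE _ hpc γ h1
    exact key ⟨0, k, Or.inr hk⟩

variable {X : Type u} [TopologicalSpace X]

theorem Split.frechet [CompactSpace X] (h : Split X) {A : Set X} {x : X} (hx : x ∈ closure A) :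
    ∃ u : ℕ → X, (∀ n, u n ∈ A) ∧ Tendsto u atTop (𝓝 x) := by
  obtain ⟨Γ, f, hf, hc, hs⟩ := h {x}
  have h1 : f x ∈ closure (f '' A) := image_closure_subset_closure_image hf ⟨x, hx, rfl⟩
  obtain ⟨u, hu, hl⟩ := sigma_frechet (S := f '' A) (by rintro _ ⟨a, _, rfl⟩; exact hc a) (hc x) h1
  choose a ha hfa using hu
  refine ⟨a, ha, tendsto_nhds_of_unique_mapClusterPt fun z hz => ?_⟩
  by_contra hne
  have h2 : MapClusterPt (f z) atTop (f ∘ a) := hz.continuousAt_comp hf.continuousAt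
  have h3 : Tendsto (f ∘ a) atTop (𝓝 (f x)) := by
    have : f ∘ a = u := funext hfa
    rw [this]; exact hl
  have h4 : f z = f x := by
    have := h2.clusterPt.mono h3
    exact eq_of_nhds_neBot this
  exact hs x rfl z hne h4.symm

theorem Split.subtype (h : Split X) (K : Set X) : Split K := by
  intro A
  obtain ⟨Γ, f, hf, hc, hs⟩ := h (Subtype.val '' A)
  refine ⟨Γ, fun x => f x, hf.comp continuous_subtype_val, fun x => hc x, ?_⟩
  intro x hx y hy
  refine hs x ⟨x, hx, rfl⟩ y ?_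
  rintro ⟨z, hz, hzy⟩
  exact hy (Subtype.ext hzy ▸ hz)

open Cardinal in
theorem Split.cor_of_small [CompactSpace X] [T2Space X] (h : Split X) {D : Set X} (hD : Dense D)
    (hc : #D ≤ 𝔠) : Cor X := by
  have h1 : ∀ x : X, ∃ u : ℕ → D, Tendsto (fun n => (u n : X)) atTop (𝓝 x) := by
    intro x
    obtain ⟨u, hu, hl⟩ := h.frechet (hD x)
    exact ⟨fun n => ⟨u n, hu n⟩, hl⟩
  choose s hs using h1
  have hinj : Function.Injective s := by
    intro x y hxy
    have := hs x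
    rw [hxy] at this
    exact tendsto_nhds_unique this (hs y)
  have h2 : #X ≤ #(ULift.{u} (Set ℕ)) := by
    calc #X ≤ #(ℕ → D) := mk_le_of_injective hinj
      _ = #D ^ ℵ₀ := by simp
      _ ≤ 𝔠 ^ ℵ₀ := power_le_power_right hc
      _ = 𝔠 := by simp
      _ = #(ULift.{u} (Set ℕ)) := by simp
  obtain ⟨e0⟩ := h2
  let e : X ↪ Set ℕ := e0.trans Equiv.ulift.toEmbedding
  choose Γ f hf hcs hsp using fun n : ℕ => h {x | n ∈ e x}
  refine ⟨(Σ n : ℕ, Γ n), fun x i => f i.1 x i.2, ?_, ?_, ?_⟩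
  · refine continuous_pi fun i => ?_
    exact (continuous_apply i.2).comp (hf i.1)
  · intro x y hxy
    apply e.injective
    have : ∀ n, f n x = f n y := fun n => funext fun γ => congrFun hxy ⟨n, γ⟩
    ext n
    constructor
    · intro hx
      by_contra hy
      exact hsp n x hx y hy (this n)
    · intro hy
      by_contra hx
      exact hsp n y hy x hx (this n).symm
  · intro x
    have : {i : (Σ n : ℕ, Γ n) | f i.1 x i.2 ≠ 0} ⊆
        ⋃ n : ℕ, (fun γ : Γ n => (⟨n, γ⟩ : Σ n : ℕ, Γ n)) '' {γ | f n x γ ≠ 0} := by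
      rintro ⟨n, γ⟩ hi
      exact mem_iUnion.2 ⟨n, γ, hi, rfl⟩
    exact (countable_iUnion fun n => (hcs n x).image _).mono this

/-- a good pair: the functions separate points of the closure, and the set is dense for them -/
def Good (D : Set X) (F : Set C(X, ℝ)) : Prop :=
  (∀ x ∈ closure D, ∀ y ∈ closure D, (∀ g ∈ F, g x = g y) → x = y) ∧
  (∀ x, ∀ G : Finset C(X, ℝ), (↑G : Set C(X, ℝ)) ⊆ F → ∀ ε : ℝ, 0 < ε →
    ∃ d ∈ D, ∀ g ∈ G, |g d - g x| < ε)

theorem Good.exists_retraction [CompactSpace X] {D : Set X} {F : Set C(X, ℝ)} (h : Good D F) :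
    ∃ r : X → X, Continuous r ∧ ∀ x, r x ∈ closure D ∧ ∀ g ∈ F, g (r x) = g x := by
  classical
  let q : X → F → ℝ := fun x g => g.1 x
  have hq : Continuous q := continuous_pi fun g => g.1.continuous
  have hcl : ∀ C : Set X, IsClosed C → IsClosed (q '' C) := fun C hC =>
    (hC.isCompact.image hq).isClosed
  have h1 : ∀ x, ∃ z, z ∈ closure D ∧ ∀ g ∈ F, g z = g x := by
    intro x
    have h2 : q x ∈ closure (q '' D) := by
      rw [mem_closure_iff_nhds]
      intro t ht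
      rw [nhds_pi, Filter.mem_pi] at ht
      obtain ⟨J, hJ, t', ht', hsub⟩ := ht
      have h3 : ∀ g : F, ∃ ε > 0, Metric.ball (q x g) ε ⊆ t' g := fun g =>
        Metric.mem_nhds_iff.1 (ht' g)
      choose ε hε hεs using h3
      obtain ⟨δ, hδ, hδle⟩ : ∃ δ : ℝ, 0 < δ ∧ ∀ g ∈ J, δ ≤ ε g := by
        rcases J.eq_empty_or_nonempty with rfl | hne
        · exact ⟨1, one_pos, by simp⟩
        · obtain ⟨g, hg, hmin⟩ := Set.exists_min_image J ε hJ hne
          exact ⟨ε g, hε g, hmin⟩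
      obtain ⟨d, hd, hdd⟩ := h.2 x (hJ.toFinset.image Subtype.val) (by
        intro g hg
        simp only [Finset.coe_image, mem_image] at hg
        obtain ⟨g', _, rfl⟩ := hg
        exact g'.2) δ hδ
      refine ⟨q d, hsub ?_, d, hd, rfl⟩
      intro g hg
      apply hεs g
      rw [Metric.mem_ball, Real.dist_eq]
      exact (hdd g.1 (Finset.mem_image_of_mem _ (by simpa using hg))).trans_le (hδle g hg)
    have h3 : closure (q '' D) ⊆ q '' closure D :=
      closure_minimal (image_mono subset_closure) (hcl _ isClosed_closure)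
    obtain ⟨z, hz, hzx⟩ := h3 h2
    exact ⟨z, hz, fun g hg => congrFun hzx ⟨g, hg⟩⟩
  choose r hr1 hr2 using h1
  refine ⟨r, ?_, fun x => ⟨hr1 x, hr2 x⟩⟩
  rw [continuous_iff_isClosed]
  intro C hC
  have : r ⁻¹' C = q ⁻¹' (q '' (C ∩ closure D)) := by
    ext x
    constructor
    · intro hx
      exact ⟨r x, ⟨hx, hr1 x⟩, funext fun g => hr2 x g.1 g.2⟩
    · rintro ⟨z, ⟨hz1, hz2⟩, hz⟩
      have : z = r x := h.1 z hz2 (r x) (hr1 x) fun g hg => by
        rw [hr2 x g hg]; exact congrFun hz ⟨g, hg⟩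
      show r x ∈ C
      exact this ▸ hz1
  rw [this]
  exact (hcl _ (hC.inter isClosed_closure)).preimage hq

end Pool.Agent.MP_c2bc14_gt.H75
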