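import Pool.Agent.MP_c2bc14_gt.H75.Basic

set_option autoImplicit false

open Set Filter Topology

universe u

namespace Pool.Agent.MP_c2bc14_gt.H75

/-- union of a family over an index set -/
def U {I α : Type u} (D : I → Set α) (L : Set I) : Set α := ⋃ a ∈ L, D a

theorem mem_U {I α : Type u} {D : I → Set α} {L : Set I} {x : α} :
    x ∈ U D L ↔ ∃ a ∈ L, x ∈ D a := by simp [U]

theorem U_mono {I α : Type u} (D : I → Set α) {L L' : Set I} (h : L ⊆ L') : U D L ⊆ U D L' := by
  intro x hx
  obtain ⟨a, ha, hx⟩ := mem_U.1 hx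
  exact mem_U.2 ⟨a, h ha, hx⟩

theorem U_mono_left {I α : Type u} {D D' : I → Set α} (h : ∀ a, D a ⊆ D' a) (L : Set I) :
    U D L ⊆ U D' L := by
  intro x hx
  obtain ⟨a, ha, hx⟩ := mem_U.1 hx
  exact mem_U.2 ⟨a, ha, h a hx⟩

variable {X : Type u} [TopologicalSpace X]

theorem cor_of_chain [CompactSpace X] (hX : Split X) {I : Type u} [LinearOrder I] [WellFoundedLT I]
    (b : I) (hb : ∀ a, b ≤ a) (D : I → Set X) (F : I → Set C(X, ℝ))
    (hgood : ∀ L : Set I, IsLowerSet L → L.Nonempty → Good (U D L) (U F L))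
    (hdense : Dense (U D univ))
    (hcor : ∀ a, Cor (closure (U D (Iic a)))) : Cor X := by
  classical
  -- retractions for all lower sets
  have h1 : ∀ L : Set I, ∃ r : X → X, Continuous r ∧ (IsLowerSet L → L.Nonempty →
      ∀ x, r x ∈ closure (U D L) ∧ ∀ g ∈ U F L, g (r x) = g x) := by
    intro L
    by_cases hL : IsLowerSet L ∧ L.Nonempty
    · obtain ⟨r, hr, hr2⟩ := (hgood L hL.1 hL.2).exists_retraction
      exact ⟨r, hr, fun _ _ => hr2⟩
    · exact ⟨id, continuous_id, fun h1 h2 => absurd ⟨h1, h2⟩ hL⟩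
  choose r hrc hr using h1
  -- uniqueness
  have huniq : ∀ L : Set I, IsLowerSet L → L.Nonempty → ∀ x z, z ∈ closure (U D L) →
      (∀ g ∈ U F L, g z = g x) → r L x = z := by
    intro L h1 h2 x z hz hg
    exact (hgood L h1 h2).1 _ (hr L h1 h2 x).1 _ hz fun g hgF => by
      rw [(hr L h1 h2 x).2 g hgF, hg g hgF]
  have hIic : ∀ a : I, IsLowerSet (Iic a) ∧ (Iic a).Nonempty := fun a =>
    ⟨isLowerSet_Iic a, ⟨a, le_rfl⟩⟩
  let M : I → Set I := fun a => Iio a ∪ {b}
  have hM : ∀ a : I, IsLowerSet (M a) ∧ (M a).Nonempty := by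
    intro a
    refine ⟨(isLowerSet_Iio a).union ?_, ⟨b, Or.inr rfl⟩⟩
    intro c d hdc hc
    have : c = b := hc
    exact le_antisymm (this ▸ hdc) (hb d)
  have hMsub : ∀ a, M a ⊆ Iic a := by
    rintro a c (hc | hc)
    · exact le_of_lt hc
    · have : c = b := hc
      exact this ▸ hb a
  choose Γ h hhc hhi hhs using hcor
  -- extend the embeddings
  let k : (a : I) → X → Γ a → ℝ := fun a x => h a ⟨r (Iic a) x, (hr _ (hIic a).1 (hIic a).2 x).1⟩
  have hkc : ∀ a, Continuous (k a) := fun a => (hhc a).comp ((hrc _).subtype_mk _)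
  have hks : ∀ a x, {i | k a x i ≠ 0}.Countable := fun a x => hhs a _
  have hki : ∀ a x y, k a x = k a y → r (Iic a) x = r (Iic a) y := fun a x y hxy =>
    congrArg Subtype.val (hhi a hxy)
  refine ⟨Γ b ⊕ (Σ a : I, Γ a), fun x i => Sum.elim (k b x)
    (fun j : (Σ a : I, Γ a) => k j.1 x j.2 - k j.1 (r (M j.1) x) j.2) i, ?_, ?_, ?_⟩
  · refine continuous_pi fun i => ?_
    rcases i with i | ⟨a, i⟩
    · exact (continuous_apply i).comp (hkc b)
    · exact ((continuous_apply i).comp (hkc a)).sub
        ((continuous_apply i).comp ((hkc a).comp (hrc _)))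
  · intro x y hxy
    have hb' : r (Iic b) x = r (Iic b) y := hki b x y (funext fun i => congrFun hxy (Sum.inl i))
    have hstep : ∀ a, r (Iic a) x = r (Iic a) y → ∀ g ∈ F a, g x = g y := by
      intro a ha g hg
      have hg' : g ∈ U F (Iic a) := mem_U.2 ⟨a, le_rfl, hg⟩
      rw [← (hr _ (hIic a).1 (hIic a).2 x).2 g hg', ha, (hr _ (hIic a).1 (hIic a).2 y).2 g hg']
    have hall : ∀ a, r (Iic a) x = r (Iic a) y := by
      intro a
      induction a using WellFoundedLT.induction with
      | ind a ih =>
        have h2 : r (M a) x = r (M a) y := by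
          apply huniq _ (hM a).1 (hM a).2 x _ (hr _ (hM a).1 (hM a).2 y).1
          intro g hg
          rw [(hr _ (hM a).1 (hM a).2 y).2 g hg]
          obtain ⟨c, hc, hgc⟩ := mem_U.1 hg
          rcases hc with hc | hc
          · exact (hstep c (ih c hc) g hgc).symm
          · have : c = b := hc
            subst this
            exact (hstep c hb' g hgc).symm
        apply hki a
        funext i
        have h3 : k a x i - k a (r (M a) x) i = k a y i - k a (r (M a) y) i :=
          congrFun hxy (Sum.inr ⟨a, i⟩)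
        rw [h2] at h3
        linarith
    refine (hgood univ isLowerSet_univ ⟨b, trivial⟩).1 x (hdense x) y (hdense y) ?_
    intro g hg
    obtain ⟨c, _, hgc⟩ := mem_U.1 hg
    exact hstep c (hall c) g hgc
  · intro x
    -- the set of jumps is countable
    let N : Set I := {a | r (Iic a) x ≠ r (M a) x}
    have hN : N.Countable := by
      by_contra hNc
      let L : Set I := {c | (N ∩ Iic c).Countable}
      have hL : IsLowerSet L := by
        intro c d hdc hc
        exact Set.Countable.mono (inter_subset_inter_right _ (Iic_subset_Iic.2 hdc)) hc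
      have hbL : b ∈ L := by
        refine Set.Countable.mono (s₂ := {b}) ?_ (countable_singleton b)
        rintro c ⟨_, hc⟩
        exact le_antisymm hc (hb c)
      have hNL : ¬ (N ∩ L).Countable := by
        intro hc
        have hne : (Lᶜ).Nonempty := by
          by_contra hcon
          rw [not_nonempty_iff_eq_empty, compl_empty_iff] at hcon
          rw [hcon, inter_univ] at hc
          exact hNc hc
        obtain ⟨a, ha, hmin⟩ := WellFounded.has_min wellFounded_lt _ hne
        apply ha
        refine Set.Countable.mono (s₂ := insert a (N ∩ L)) ?_ (hc.insert a)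
        rintro c ⟨hcN, hca⟩
        rcases eq_or_lt_of_le (show c ≤ a from hca) with h | h
        · exact Or.inl h
        · refine Or.inr ⟨hcN, ?_⟩
          by_contra hcL
          exact hmin c hcL h
      obtain ⟨hz1, hz2⟩ := hr L hL ⟨b, hbL⟩ x
      obtain ⟨u, hu, hul⟩ := hX.frechet hz1
      choose c hcL hc using fun n => mem_U.1 (hu n)
      have hcount : (⋃ n, N ∩ Iic (c n)).Countable := countable_iUnion fun n => hcL n
      obtain ⟨a, haNL, ha⟩ : ∃ a ∈ N ∩ L, a ∉ ⋃ n, N ∩ Iic (c n) := by
        by_contra hcon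
        push Not at hcon
        exact hNL (hcount.mono hcon)
      have hlt : ∀ n, c n < a := by
        intro n
        by_contra hcon
        exact ha (mem_iUnion.2 ⟨n, haNL.1, not_lt.1 hcon⟩)
      have hzM : r L x ∈ closure (U D (M a)) :=
        mem_closure_of_tendsto hul (Eventually.of_forall fun n =>
          mem_U.2 ⟨c n, Or.inl (hlt n), hc n⟩)
      have haL : Iic a ⊆ L := fun d hd => hL hd haNL.2
      have e1 : r (M a) x = r L x := huniq _ (hM a).1 (hM a).2 x _ hzM fun g hg =>
        hz2 g (U_mono F ((hMsub a).trans haL) hg)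
      have e2 : r (Iic a) x = r L x := huniq _ (hIic a).1 (hIic a).2 x _
        (closure_mono (U_mono D (hMsub a)) hzM) fun g hg => hz2 g (U_mono F haL hg)
      exact haNL.1 (e2.trans e1.symm)
    have hsub : {i : Γ b ⊕ (Σ a : I, Γ a) | Sum.elim (k b x)
        (fun j : (Σ a : I, Γ a) => k j.1 x j.2 - k j.1 (r (M j.1) x) j.2) i ≠ 0} ⊆
        Sum.inl '' {i | k b x i ≠ 0} ∪ ⋃ a ∈ N,
          (fun i : Γ a => (Sum.inr ⟨a, i⟩ : Γ b ⊕ (Σ a : I, Γ a))) ''
            ({i | k a x i ≠ 0} ∪ {i | k a (r (M a) x) i ≠ 0}) := by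
      rintro (i | ⟨a, i⟩) hi
      · exact Or.inl ⟨i, hi, rfl⟩
      · right
        have hi' : k a x i - k a (r (M a) x) i ≠ 0 := hi
        have haN : a ∈ N := by
          intro heq
          apply hi'
          have : r (Iic a) (r (M a) x) = r (Iic a) x := by
            rw [← heq]
            exact huniq _ (hIic a).1 (hIic a).2 _ _ (hr _ (hIic a).1 (hIic a).2 x).1
              fun g _ => rfl
          have h4 : k a (r (M a) x) = k a x := by
            simp only [k, this]
          rw [h4, sub_self]
        refine mem_biUnion haN ⟨i, ?_, rfl⟩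
        by_contra hcon
        simp only [mem_union, mem_ofPred_eq, not_or, not_not] at hcon
        apply hi'
        rw [hcon.1, hcon.2, sub_self]
    refine Set.Countable.mono hsub (((hks b x).image _).union ?_)
    exact hN.biUnion fun a _ => ((hks a x).union (hks a _)).image _

end Pool.Agent.MP_c2bc14_gt.H75
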