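import Pool.Agent.MP_c2bc14_gt.H75.Glue

set_option autoImplicit false

open Set Filter Topology Cardinal

universe u

namespace Pool.Agent.MP_c2bc14_gt.H75

/-- the size bound at level a -/
noncomputable def bd {I : Type u} [LinearOrder I] (a : I) : Cardinal.{u} := max #(Iic a) 𝔠

theorem aleph0_le_bd {I : Type u} [LinearOrder I] (a : I) : ℵ₀ ≤ bd a :=
  aleph0_le_continuum.trans (le_max_right _ _)

theorem bd_mono {I : Type u} [LinearOrder I] {a c : I} (h : a ≤ c) : bd a ≤ bd c :=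
  max_le_max (mk_le_mk_of_subset (Iic_subset_Iic.2 h)) le_rfl

theorem mk_biUnion_le_of {ι α : Type u} (s : Set ι) (A : ι → Set α) {κ : Cardinal.{u}} (hκ : ℵ₀ ≤ κ)
    (hs : #s ≤ κ) (hA : ∀ i ∈ s, #(A i) ≤ κ) : #(⋃ i ∈ s, A i : Set α) ≤ κ := by
  refine (mk_biUnion_le A s).trans ?_
  refine (mul_le_mul' hs (ciSup_le' fun i : s => hA i.1 i.2)).trans ?_
  rw [mul_eq_self hκ]

theorem mk_iUnion_le_of {ι α : Type u} (A : ι → Set α) {κ : Cardinal.{u}} (hκ : ℵ₀ ≤ κ)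
    (hs : #ι ≤ κ) (hA : ∀ i, #(A i) ≤ κ) : #(⋃ i, A i : Set α) ≤ κ := by
  have := mk_biUnion_le_of (Set.univ : Set ι) A hκ (by simpa using hs) (fun i _ => hA i)
  simpa using this

theorem mk_union_le_of {α : Type u} {A B : Set α} {κ : Cardinal.{u}} (hκ : ℵ₀ ≤ κ)
    (hA : #A ≤ κ) (hB : #B ≤ κ) : #(A ∪ B : Set α) ≤ κ :=
  (mk_union_le A B).trans (add_le_of_le hκ hA hB)

theorem mk_U_Iic_le {I α : Type u} [LinearOrder I] {D : I → Set α} (h : ∀ a, #(D a) ≤ bd a) (a : I) :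
    #(U D (Iic a)) ≤ bd a :=
  mk_biUnion_le_of _ _ (aleph0_le_bd a) (le_max_left _ _) fun c hc => (h c).trans (bd_mono hc)

theorem mk_finsets_le {α : Type u} (S : Set α) {κ : Cardinal.{u}} (hκ : ℵ₀ ≤ κ) (hS : #S ≤ κ) :
    #({G : Finset α | (↑G : Set α) ⊆ S}) ≤ κ := by
  classical
  have h1 : #({G : Finset α | (↑G : Set α) ⊆ S}) ≤ #(List S) := by
    refine mk_le_of_surjective (f := fun l : List S =>
      (⟨(l.map Subtype.val).toFinset, ?_⟩ : {G : Finset α | (↑G : Set α) ⊆ S})) ?_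
    · intro x hx
      simp only [List.coe_toFinset, List.mem_map, mem_ofPred_eq] at hx
      obtain ⟨y, _, rfl⟩ := hx
      exact y.2
    · rintro ⟨G, hG⟩
      refine ⟨G.attach.toList.map fun x => ⟨x.1, hG x.2⟩, ?_⟩
      apply Subtype.ext
      ext x
      simp
  exact h1.trans ((mk_list_le_max _).trans (max_le hκ hS))

variable {X : Type u} [TopologicalSpace X]

theorem exists_countable_approx (G : Finset C(X, ℝ)) :
    ∃ T : Set X, T.Countable ∧ ∀ x, ∀ ε : ℝ, 0 < ε → ∃ d ∈ T, ∀ g ∈ G, |g d - g x| < ε := by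
  let q : X → G → ℝ := fun x g => g.1 x
  obtain ⟨c, hc1, hc2, hc3⟩ := (TopologicalSpace.IsSeparable.of_separableSpace
    (range q)).exists_countable_dense_subset
  have : ∀ p : c, ∃ d : X, q d = p := fun p => hc1 p.2
  choose d hd using this
  have := hc2.to_subtype
  refine ⟨range d, countable_range d, fun x ε hε => ?_⟩
  obtain ⟨p, hp, hpε⟩ := approx_of_mem_closure (hc3 ⟨x, rfl⟩) Finset.univ hε
  refine ⟨d ⟨p, hp⟩, ⟨_, rfl⟩, fun g hg => ?_⟩
  have h1 := hpε ⟨g, hg⟩ (Finset.mem_univ _)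
  have h2 : g (d ⟨p, hp⟩) = p ⟨g, hg⟩ := congrFun (hd ⟨p, hp⟩) ⟨g, hg⟩
  rw [h2]
  exact h1

theorem lower_eq {I : Type u} [LinearOrder I] [WellFoundedLT I] {L : Set I} (hL : IsLowerSet L) :
    L = Set.univ ∨ ∃ a, L = Iio a := by
  by_cases hne : (Lᶜ).Nonempty
  · right
    obtain ⟨a, ha, hmin⟩ := WellFounded.has_min wellFounded_lt _ hne
    refine ⟨a, ?_⟩
    ext c
    constructor
    · intro hc
      by_contra hca
      exact ha (hL (not_lt.1 hca) hc)
    · intro hc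
      by_contra hcL
      exact hmin c hcL hc
  · left
    rwa [not_nonempty_iff_eq_empty, compl_empty_iff] at hne

theorem exists_code [CompactSpace X] (hX : Split X) {I : Type u} [LinearOrder I] [WellFoundedLT I]
    (D : I → Set X) (x : X) : ∃ s : ℕ → X, Tendsto s atTop (𝓝 x) ∧
      ∀ L : Set I, IsLowerSet L → x ∈ closure (U D L) → ∀ n, s n ∈ U D L := by
  by_cases h1 : ∃ a, x ∈ closure (U D (Iio a))
  · obtain ⟨a, ha, hmin⟩ := WellFounded.has_min wellFounded_lt {a | x ∈ closure (U D (Iio a))} h1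
    obtain ⟨s, hs, hl⟩ := hX.frechet ha
    refine ⟨s, hl, fun L hL hx n => U_mono D ?_ (hs n)⟩
    rcases lower_eq hL with rfl | ⟨c, rfl⟩
    · exact subset_univ _
    · exact Iio_subset_Iio (not_lt.1 (hmin c hx))
  · by_cases h2 : x ∈ closure (U D Set.univ)
    · obtain ⟨s, hs, hl⟩ := hX.frechet h2
      refine ⟨s, hl, fun L hL hx n => ?_⟩
      rcases lower_eq hL with rfl | ⟨c, rfl⟩
      · exact hs n
      · exact absurd ⟨c, hx⟩ h1
    · refine ⟨fun _ => x, tendsto_const_nhds, fun L _ hx => ?_⟩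
      exact absurd (closure_mono (U_mono D (subset_univ L)) hx) h2

theorem exists_improve [CompactSpace X] [T2Space X] (hX : Split X) {I : Type u} [LinearOrder I]
    [WellFoundedLT I] (σ : (I → Set X) × (I → Set C(X, ℝ))) :
    ∃ τ : (I → Set X) × (I → Set C(X, ℝ)), (∀ a, σ.1 a ⊆ τ.1 a) ∧ (∀ a, σ.2 a ⊆ τ.2 a) ∧
      ((∀ a, #(σ.1 a) ≤ bd a ∧ #(σ.2 a) ≤ bd a) → ∀ a, #(τ.1 a) ≤ bd a ∧ #(τ.2 a) ≤ bd a) ∧
      (∀ L : Set I, IsLowerSet L → ∀ x ∈ closure (U σ.1 L), ∀ y ∈ closure (U σ.1 L),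
        (∀ g ∈ U τ.2 L, g x = g y) → x = y) ∧
      (∀ a, ∀ x, ∀ G : Finset C(X, ℝ), (↑G : Set C(X, ℝ)) ⊆ U σ.2 (Iic a) → ∀ ε : ℝ, 0 < ε →
        ∃ d ∈ τ.1 a, ∀ g ∈ G, |g d - g x| < ε) := by
  obtain ⟨D, F⟩ := σ
  choose s hsl hs using exists_code hX D
  choose T hTc hT using exists_countable_approx (X := X)
  choose Γ f hf hcs hsp using fun p : ℕ × X => hX {x | s x p.1 = p.2}
  let co : (p : ℕ × X) → Γ p → C(X, ℝ) := fun p γ =>
    ⟨fun x => f p x γ, (continuous_apply γ).comp (hf p)⟩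
  refine ⟨(fun a => D a ∪ ⋃ G ∈ {G : Finset C(X, ℝ) | (↑G : Set C(X, ℝ)) ⊆ U F (Iic a)}, T G,
    fun a => F a ∪ ⋃ d ∈ U D (Iic a), ⋃ d' ∈ U D (Iic a), ⋃ n : ℕ,
      co (n, d) '' {γ | f (n, d) d' γ ≠ 0}), fun a => subset_union_left,
      fun a => subset_union_left, ?_, ?_, ?_⟩
  · intro hsm a
    have hD := mk_U_Iic_le (fun a => (hsm a).1) a
    have hF := mk_U_Iic_le (fun a => (hsm a).2) a
    have h0 := aleph0_le_bd a
    constructor
    · refine mk_union_le_of h0 (hsm a).1 ?_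
      refine mk_biUnion_le_of _ _ h0 (mk_finsets_le _ h0 hF) fun G _ => ?_
      exact (le_aleph0_iff_set_countable.2 (hTc G)).trans h0
    · refine mk_union_le_of h0 (hsm a).2 ?_
      refine mk_biUnion_le_of _ _ h0 hD fun d _ => ?_
      refine mk_biUnion_le_of _ _ h0 hD fun d' _ => ?_
      refine (le_aleph0_iff_set_countable.2 ?_).trans h0
      exact countable_iUnion fun n => (hcs (n, d) d').image _
  · intro L hL x hx y hy hg
    by_contra hxy
    have h1 : ∃ n, s y n ≠ s x n := by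
      by_contra hcon
      push Not at hcon
      have : s y = s x := funext hcon
      exact hxy (tendsto_nhds_unique (hsl x) (this ▸ hsl y))
    obtain ⟨n, hn⟩ := h1
    have h2 : f (n, s x n) x ≠ f (n, s x n) y := hsp (n, s x n) x rfl y hn
    obtain ⟨γ, hγ⟩ := Function.ne_iff.1 h2
    obtain ⟨a, haL, ha⟩ := mem_U.1 (hs x L hL hx n)
    have h3 : ∀ z ∈ closure (U D L), f (n, s x n) z γ ≠ 0 →
        ∃ d' ∈ U D L, f (n, s x n) d' γ ≠ 0 := by
      intro z hz hz0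
      have ho : IsOpen {w | f (n, s x n) w γ ≠ 0} :=
        isOpen_ne_fun ((continuous_apply γ).comp (hf _)) continuous_const
      obtain ⟨w, hw1, hw2⟩ := mem_closure_iff.1 hz _ ho hz0
      exact ⟨w, hw2, hw1⟩
    obtain ⟨d', hd', hd'0⟩ : ∃ d' ∈ U D L, f (n, s x n) d' γ ≠ 0 := by
      by_cases hx0 : f (n, s x n) x γ = 0
      · exact h3 y hy fun hy0 => hγ (hx0.trans hy0.symm)
      · exact h3 x hx hx0
    obtain ⟨c, hcL, hc⟩ := mem_U.1 hd'
    have hm : max a c ∈ L := by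
      rcases le_total a c with h | h
      · rwa [max_eq_right h]
      · rwa [max_eq_left h]
    apply hγ
    refine hg (co (n, s x n) γ) (mem_U.2 ⟨max a c, hm, Or.inr ?_⟩)
    refine mem_biUnion (x := s x n) (mem_U.2 ⟨a, le_max_left _ _, ha⟩) ?_
    refine mem_biUnion (x := d') (mem_U.2 ⟨c, le_max_right _ _, hc⟩) ?_
    exact mem_iUnion.2 ⟨n, γ, hd'0, rfl⟩
  · intro a x G hG ε hε
    obtain ⟨d, hd, hdd⟩ := hT G x ε hε
    exact ⟨d, Or.inr (mem_biUnion (x := G) hG hd), hdd⟩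

end Pool.Agent.MP_c2bc14_gt.H75
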